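import Pool.Agent.D0H87.TS.Ssyl
import Pool.Agent.D0H42.TS.Cen

/-! # Project TS: module SCEN -/

set_option autoImplicit false

namespace Pool.Agent.D0H87.TS

open MvPolynomial Matrix Pool.Agent.D0H67.TS Pool.Agent.D0H67.CX

theorem pderiv_brdS {m : Type} {r : ℕ} (a : Fin r → m)
    (p p' : Sym2 {i : m // i ∉ Set.range a}) :
    (p' = p → pderiv (p'.map Subtype.val) (brdS m a p) = minS m r (a, a)) ∧
      (p' ≠ p → pderiv (p'.map Subtype.val) (brdS m a p) = 0) := by
  classical
  have hX : ∀ q : Sym2 m, q ≠ p'.map Subtype.val →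
      pderiv (p'.map Subtype.val) (X q : MvPolynomial (Sym2 m) ℂ) = 0 := by
    intro q hq
    rw [pderiv_X, Pi.single_eq_of_ne hq]
  have hm : ∀ (t : Fin r) (q : Sym2 m), a t ∈ q → q ≠ p'.map Subtype.val := by
    rintro t q hq rfl
    obtain ⟨x, -, hx⟩ := Sym2.mem_map.1 hq
    exact x.2 ⟨t, hx.symm⟩
  obtain ⟨h1, h2⟩ := Pool.Agent.D0H42.TS.kill (pderiv (p'.map Subtype.val))
    (Matrix.of fun i j => X s(a i, a j) : Matrix (Fin r) (Fin r) (MvPolynomial (Sym2 m) ℂ)) (by
      intro i j
      exact hX _ (hm i _ (Sym2.mem_mk_left _ _)))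
  have h3 : pderiv (p'.map Subtype.val) (brdS m a p) =
      minS m r (a, a) *
        pderiv (p'.map Subtype.val) (X (p.map Subtype.val) : MvPolynomial (Sym2 m) ℂ) := by
    have h1' : pderiv (p'.map Subtype.val) (minS m r (a, a)) = 0 := h1
    induction p using Sym2.ind with
    | _ i j =>
      rw [brdS_mk, fS_brd, map_sub, Derivation.leibniz, h1', smul_zero, add_zero, smul_eq_mul,
        map_sum, Finset.sum_eq_zero, sub_zero, Sym2.map_mk]
      intro s _
      rw [map_sum, Finset.sum_eq_zero]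
      intro t _
      rw [Derivation.leibniz, Derivation.leibniz, h2,
        hX s(i.1, a s) (hm s _ (Sym2.mem_mk_right _ _)),
        hX s(a t, j.1) (hm t _ (Sym2.mem_mk_left _ _))]
      simp
  constructor
  · rintro rfl
    rw [h3, pderiv_X_self, mul_one]
  · intro hne
    rw [h3, hX _ fun h => hne (Sym2.map.injective Subtype.val_injective h).symm, mul_zero]

theorem t_SCEN : S_SCEN := by
  intro m _ r a u hu hz k
  refine ⟨hz, ?_, by rw [map_pow]; exact pow_ne_zero _ hu⟩
  classical
  rw [linearIndependent_iff']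
  intro s g hg q hq
  have h1 := congrFun hg (q.map Subtype.val)
  rw [Finset.sum_apply, Finset.sum_eq_single q] at h1
  · simp only [Pi.smul_apply, Pi.zero_apply, smul_eq_mul] at h1
    rw [(pderiv_brdS a q q).1 rfl] at h1
    exact (mul_eq_zero.1 h1).resolve_right hu
  · intro q' _ hne
    simp only [Pi.smul_apply, smul_eq_mul]
    rw [(pderiv_brdS a q' q).2 (Ne.symm hne), map_zero, mul_zero]
  · intro h
    exact absurd hq h

end Pool.Agent.D0H87.TS
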