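import Pool.Agent.D0H67.TS.SStm

/-! # Project TS: module SSYL -/

set_option autoImplicit false

namespace Pool.Agent.D0H87.TS

open MvPolynomial Matrix Pool.Agent.D0H67.TS Pool.Agent.D0H67.CX

/-- the map `X (i, j) ↦ X s(i, j)` -/
noncomputable def fS (m : Type) : MvPolynomial (m × m) ℂ →ₐ[ℂ] MvPolynomial (Sym2 m) ℂ :=
  rename (fun p : m × m => s(p.1, p.2))

theorem fS_X (m : Type) (i j : m) : fS m (X (i, j)) = X s(i, j) := rename_X _ _

theorem fS_minG (m : Type) (k : ℕ) (q : (Fin k → m) × (Fin k → m)) :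
    fS m (minG m m k q) = minS m k q := by
  unfold minG minS
  rw [AlgHom.map_det]
  congr 1
  ext1 i j
  exact fS_X m _ _

theorem fS_brd (m : Type) {r : ℕ} (a : Fin r → m) (i j : {i : m // i ∉ Set.range a}) :
    fS m (brd m m a a (i, j)) = minS m r (a, a) * X s(i.1, j.1) - ∑ s, ∑ t, X s(i.1, a s) *
    (Matrix.of fun i j => X s(a i, a j) :
      Matrix (Fin r) (Fin r) (MvPolynomial (Sym2 m) ℂ)).adjugate s t * X s(a t, j.1) := by
  have hA : ∀ s t, fS m ((Matrix.of fun i j => X (a i, a j) :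
      Matrix (Fin r) (Fin r) (MvPolynomial (m × m) ℂ)).adjugate s t) =
      (Matrix.of fun i j => X s(a i, a j) :
      Matrix (Fin r) (Fin r) (MvPolynomial (Sym2 m) ℂ)).adjugate s t := by
    intro s t
    have h1 := congrFun (congrFun ((fS m).map_adjugate (Matrix.of fun i j => X (a i, a j) :
      Matrix (Fin r) (Fin r) (MvPolynomial (m × m) ℂ))) s) t
    have h2 : (fS m).mapMatrix (Matrix.of fun i j => X (a i, a j) :
      Matrix (Fin r) (Fin r) (MvPolynomial (m × m) ℂ)) = Matrix.of fun i j => X s(a i, a j) := by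
      ext1 i j
      exact fS_X m _ _
    rw [h2] at h1
    exact h1
  unfold brd
  rw [map_sub, map_mul, fS_minG, fS_X, map_sum]
  congr 1
  refine Finset.sum_congr rfl fun s _ => ?_
  rw [map_sum]
  refine Finset.sum_congr rfl fun t _ => ?_
  rw [map_mul, map_mul, fS_X, fS_X, hA]

theorem fS_symm (m : Type) {r : ℕ} (a : Fin r → m) (i j : {i : m // i ∉ Set.range a}) :
    fS m (brd m m a a (i, j)) = fS m (brd m m a a (j, i)) := by
  have hA : ∀ s t, (Matrix.of fun i j => X s(a i, a j) :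
      Matrix (Fin r) (Fin r) (MvPolynomial (Sym2 m) ℂ)).adjugate s t =
      (Matrix.of fun i j => X s(a i, a j) :
      Matrix (Fin r) (Fin r) (MvPolynomial (Sym2 m) ℂ)).adjugate t s := by
    intro s t
    have h1 : (Matrix.of fun i j => X s(a i, a j) :
      Matrix (Fin r) (Fin r) (MvPolynomial (Sym2 m) ℂ))ᵀ = Matrix.of fun i j => X s(a i, a j) := by
      ext1 i j
      exact congrArg X Sym2.eq_swap
    have h2 := congrFun (congrFun (Matrix.adjugate_transpose (Matrix.of fun i j => X s(a i, a j) :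
      Matrix (Fin r) (Fin r) (MvPolynomial (Sym2 m) ℂ))) s) t
    rw [h1] at h2
    exact h2.symm
  rw [fS_brd, fS_brd, Finset.sum_comm, (Sym2.eq_swap : s(i.1, j.1) = s(j.1, i.1))]
  congr 1
  refine Finset.sum_congr rfl fun s _ => Finset.sum_congr rfl fun t _ => ?_
  rw [hA t s, (Sym2.eq_swap : s(i.1, a t) = s(a t, i.1)), (Sym2.eq_swap : s(a s, j.1) = s(j.1, a s))]
  ring

theorem brdS_mk (m : Type) {r : ℕ} (a : Fin r → m) (i j : {i : m // i ∉ Set.range a}) :
    brdS m a s(i, j) = fS m (brd m m a a (i, j)) := by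
  have h1 : (Quot.mk _ (Quot.out s(i, j)) : Sym2 {i : m // i ∉ Set.range a}) = s(i, j) :=
    Quot.out_eq _
  have h3 : brdS m a s(i, j) = fS m (brd m m a a (Quot.out s(i, j))) := rfl
  rw [h3]
  generalize (Quot.out s(i, j)) = q at h1
  obtain ⟨x, y⟩ := q
  have h2 : s(x, y) = s(i, j) := h1
  rcases Sym2.eq_iff.1 h2 with ⟨rfl, rfl⟩ | ⟨rfl, rfl⟩
  · rfl
  · exact fS_symm m a _ _

theorem fS_bind (m : Type) {r : ℕ} (a : Fin r → m) (k : ℕ)
    (l : (Fin k → {i : m // i ∉ Set.range a}) × (Fin k → {i : m // i ∉ Set.range a})) :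
    fS m (bind₁ (brd m m a a)
      (minG {i : m // i ∉ Set.range a} {i : m // i ∉ Set.range a} k l)) =
      bind₁ (brdS m a) (minS {i : m // i ∉ Set.range a} k l) := by
  unfold minG minS
  rw [AlgHom.map_det, AlgHom.map_det, AlgHom.map_det]
  congr 1
  ext1 i j
  have h : fS m (bind₁ (brd m m a a) (X (l.1 i, l.2 j))) = bind₁ (brdS m a) (X s(l.1 i, l.2 j)) := by
    rw [bind₁_X_right, bind₁_X_right, brdS_mk]
  exact h

theorem map_mem (m : Type) {J J' : Type} {g : J → MvPolynomial (m × m) ℂ}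
    {g' : J' → MvPolynomial (Sym2 m) ℂ} (h : ∀ j, ∃ j', fS m (g j) = g' j')
    {p : MvPolynomial (m × m) ℂ} (hp : p ∈ Ideal.span (Set.range g)) :
    fS m p ∈ Ideal.span (Set.range g') := by
  have h1 := Ideal.mem_map_of_mem (fS m) hp
  rw [Ideal.map_span] at h1
  refine Ideal.span_mono ?_ h1
  rintro _ ⟨_, ⟨j, rfl⟩, rfl⟩
  obtain ⟨j', hj'⟩ := h j
  exact ⟨j', hj'.symm⟩

theorem t_SSYL : S_SYLA → S_SYLB → S_SSYL := by
  intro hA hB m _ r k a hr
  constructor
  · intro q
    have h1 := map_mem m (g' := fun l =>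
      bind₁ (brdS m a) (minS {i : m // i ∉ Set.range a} (k - r) l))
      (fun l => ⟨l, fS_bind m a (k - r) l⟩) (hA a a hr q)
    rw [map_mul, map_pow, fS_minG, fS_minG] at h1
    exact h1
  · intro l
    have h1 := map_mem m (g' := minS m k) (fun q => ⟨q, fS_minG m k q⟩) (hB a a hr l)
    rw [map_mul, map_pow, fS_minG, fS_bind] at h1
    exact h1

end Pool.Agent.D0H87.TS
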