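import Pool.Agent.D0H67.TS.Stm
import Pool.Agent.D0H65.CX.Vmon3
import Pool.Agent.D0H22.CX.Genv3
import Pool.Agent.D0H22.CX.Rel3

/-! # Project TS, module VMONN: families of quasi-homogeneous cones, relative to the leading coefficient -/

set_option autoImplicit false
set_option linter.unusedSectionVars false
set_option linter.unusedVariables false

namespace Pool.Agent.D0H87.TS

open MvPolynomial Pool.Agent.W428.MOT Pool.Agent.TH192.MT Pool.Agent.TH192.DT
  Pool.Agent.D0H67.SUB Pool.Agent.D0H67.PM Pool.Agent.D0H67.SUB.Trn Pool.Agent.D0H67.SUB.Lev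
  Pool.Agent.D0H67.CX Pool.Agent.D0H67.TS Pool.Agent.D0H65.CX

theorem mem_JetC {σ J : Type} {g : J → MvPolynomial σ ℂ} {p : Pt ℂ σ}
    {y : J → AlgebraicClosure ℂ} {N : ℕ} {c : AlgebraicClosure ℂ} {z : Pt ℂ (σ × Fin (N + 1))} :
    z ∈ JetC g p y N c ↔ jk z 0 = p ∧ (∀ j, PowerSeries.X ^ N ∣ aeval (ar z) (g j)) ∧
      ∀ j, PowerSeries.coeff N (aeval (ar z) (g j)) = c * y j := by
  have h0 : jk z 0 = fun i => z (i, 0) := Lev.jk_zero z
  rw [h0, funext_iff]
  refine and_congr Iff.rfl (and_congr ?_ Iff.rfl)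
  exact forall_congr' fun j => PowerSeries.X_pow_dvd_iff.symm

/-- the leading coefficient -/
theorem lead {σ J : Type} (g : J → MvPolynomial σ ℂ) (w : σ → ℕ) (d : ℕ)
    (hg : ∀ j, MvPolynomial.IsWeightedHomogeneous w (g j) d) (v : Pt ℂ σ) (N a : ℕ) (hN : d * a = N)
    (z : Pt ℂ (σ × Fin (N + 1))) (hz0 : jk z 0 = fun i => if w i = 0 then v i else 0)
    (hlt : ∀ i, w i ≠ 0 → ∀ k < a * w i, jk z k i = 0) (j : J) :
    PowerSeries.X ^ N ∣ aeval (ar z) (g j) ∧ PowerSeries.coeff N (aeval (ar z) (g j)) =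
      aeval (fun i => if w i = 0 then v i else jk z (a * w i) i) (g j) := by
  obtain ⟨u, hu, hu0⟩ := Pool.Agent.D0H22.CX.ar_factor3 w z a hlt
  have hu' : ar z = fun i => (PowerSeries.X ^ a) ^ w i * u i := funext hu
  have hgj : aeval (ar z) (g j) = PowerSeries.X ^ N * aeval u (g j) := by
    rw [hu', Pool.Agent.D0H22.CX.whom_aeval (hg j), ← pow_mul, mul_comm a d, hN]
  refine ⟨⟨_, hgj⟩, ?_⟩
  have h3 := PowerSeries.coeff_X_pow_mul (aeval u (g j)) N 0
  rw [zero_add] at h3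
  have hval : (fun i => PowerSeries.coeff 0 (u i)) =
      fun i => if w i = 0 then v i else jk z (a * w i) i := by
    funext i
    rw [hu0 i]
    split_ifs with hi
    · rw [hz0]
      simp only [if_pos hi]
    · rfl
  rw [hgj, h3, Pool.Agent.D0H35.CX.coeff_zero_aeval, hval]

section pieces

variable {σ : Type} [Fintype σ] (w : σ → ℕ) {ρ : Type} [Fintype ρ]

/-- the set of ORBN for `c₀ = 1` -/
def ZZ (u : Pt ℂ σ) (d a N : ℕ) (Φ : Set (Pt ℂ (ρ ⊕ Unit))) :
    Set (Pt ℂ (ρ ⊕ (σ × Fin (N + 1)))) :=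
  {x : Pt ℂ (ρ ⊕ (σ × Fin (N + 1))) |
    (jk (fun q => x (Sum.inr q)) 0 = fun i => if w i = 0 then u i else 0) ∧
    (∀ i, w i ≠ 0 → ∀ k < a * w i, jk (fun q => x (Sum.inr q)) k i = 0) ∧
    ∃ r : AlgebraicClosure ℂ, r ≠ 0 ∧
      (∀ i, w i ≠ 0 → jk (fun q => x (Sum.inr q)) (a * w i) i = r ^ w i * u i) ∧
      (Sum.elim (fun s => x (Sum.inl s)) fun _ => r ^ d * 1 : Pt ℂ (ρ ⊕ Unit)) ∈ Φ}

/-- the union over a finite set of orbits -/
def ZU (T : Finset (Pt ℂ σ)) (d a N : ℕ) (Φ : Set (Pt ℂ (ρ ⊕ Unit))) :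
    Set (Pt ℂ (ρ ⊕ (σ × Fin (N + 1)))) :=
  {x | ∃ u ∈ T, x ∈ ZZ w u d a N Φ}

theorem ZU_main (hORB : S_ORBN) (hgcd : ∀ k : ℕ, (∀ i, k ∣ w i) → k = 1) (d a N : ℕ)
    (hd : 0 < d) (ha : 0 < a) (hwd : ∀ i, a * w i ≤ N) (Φ : Set (Pt ℂ (ρ ⊕ Unit))) (hΦ : Constr Φ)
    (T : Finset (Pt ℂ σ)) :
    (∀ u ∈ T, ∀ i, w i ≠ 0 → u i ≠ 0) →
    (∀ u ∈ T, ∀ u' ∈ T, u ≠ u' → ¬ Vmon3.Rel w u u') →
    Constr (ZU w T d a N Φ) ∧ ∀ {R : Type} [CommRing R] (M : Meas ℂ R),
      M.χ _ (ZU w T d a N Φ) = (T.card : R) * M.χ (ρ ⊕ Unit) (RS d Φ) *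
        M.L ^ (∑ i, (N - a * w i)) := by
  classical
  induction T using Finset.induction_on with
  | empty =>
    intro _ _
    have h : ZU w (∅ : Finset (Pt ℂ σ)) d a N Φ = ∅ := by
      ext z
      simp [ZU]
    rw [h]
    refine ⟨Constr.empty, fun M => ?_⟩
    rw [Vmon3.chi_empty M, Finset.card_empty, Nat.cast_zero, zero_mul, zero_mul]
  | insert u T huT ih =>
    intro h0 hdis
    obtain ⟨hc, hQ⟩ := ih (fun u' hu' => h0 u' (Finset.mem_insert_of_mem hu'))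
      (fun u' hu' u'' hu'' hne => hdis u' (Finset.mem_insert_of_mem hu') u''
        (Finset.mem_insert_of_mem hu'') hne)
    have hv := h0 u (Finset.mem_insert_self _ _)
    obtain ⟨hcu, hQ'⟩ := hORB w hgcd u hv N a d ha hd hwd 1 one_ne_zero Φ hΦ
    have hcu' : Constr (ZZ w u d a N Φ) := hcu
    have hun : ZU w (insert u T) d a N Φ = ZZ w u d a N Φ ∪ ZU w T d a N Φ := by
      ext z
      constructor
      · rintro ⟨u', hu', hz⟩
        rcases Finset.mem_insert.1 hu' with rfl | h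
        · exact Or.inl hz
        · exact Or.inr ⟨u', h, hz⟩
      · rintro (hz | ⟨u', h, hz⟩)
        · exact ⟨u, Finset.mem_insert_self _ _, hz⟩
        · exact ⟨u', Finset.mem_insert_of_mem h, hz⟩
    have hdj : Disjoint (ZZ w u d a N Φ) (ZU w T d a N Φ) := by
      rw [Set.disjoint_left]
      rintro x ⟨-, -, r, hr, h3, -⟩ ⟨u', hu', -, -, r', hr', h5, -⟩
      have hne : u ≠ u' := fun h => huT (h ▸ hu')
      have h7 : Vmon3.Rel w u (fun i => jk (fun q => x (Sum.inr q)) (a * w i) i) := ⟨r, hr, h3⟩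
      have h8 : Vmon3.Rel w u' (fun i => jk (fun q => x (Sum.inr q)) (a * w i) i) := ⟨r', hr', h5⟩
      exact hdis u (Finset.mem_insert_self _ _) u' (Finset.mem_insert_of_mem hu') hne
        (Vmon3.Rel.trans w h7 (Vmon3.Rel.symm w h8))
    rw [hun]
    refine ⟨hcu'.union hc, fun M => ?_⟩
    have hQ1 : M.χ _ (ZZ w u d a N Φ) = M.χ (ρ ⊕ Unit) (RS d Φ) * M.L ^ (∑ i, (N - a * w i)) :=
      hQ' M
    rw [M.add _ _ hcu' hc hdj, hQ1, hQ M, Finset.card_insert_of_notMem huT]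
    push_cast
    ring

end pieces

/-- from GENV3 and ORBN -/
theorem main : S_GENV3 → S_ORBN → S_VMONN := by
  intro hGENV hORB σ J _ _ g ι w d hgcd hd hg halg ε hε
  classical
  obtain ⟨hwd, H, hH0, hH⟩ := hGENV g ι w d hgcd hd hg halg
  obtain ⟨v, hvε, hvH⟩ := Vmon2.small_ne H hH0 ε hε
  obtain ⟨vF, hvF⟩ : ∃ vF : Pt ℂ σ, vF = fun i => algebraMap ℂ (AlgebraicClosure ℂ) (v i) := ⟨_, rfl⟩
  obtain ⟨pF, hpF⟩ : ∃ pF : Pt ℂ σ, pF = fun i => if w i = 0 then vF i else 0 := ⟨_, rfl⟩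
  have hinj : Function.Injective (algebraMap ℂ (AlgebraicClosure ℂ)) :=
    (algebraMap ℂ (AlgebraicClosure ℂ)).injective
  have hvFH : aeval vF H ≠ 0 := by
    rw [hvF, Vmon.aevalA']
    intro h1
    exact hvH (hinj (by rw [h1, map_zero]))
  obtain ⟨⟨j0, hj0⟩, hfin, hnz, hJ⟩ := hH vF hvFH
  rw [← hpF] at hJ
  obtain ⟨T, hT1, hT2, hT3⟩ := Vmon3.reps (Vmon3.Rel w) (Vmon3.Rel.refl w)
    (fun _ _ h => Vmon3.Rel.symm w h) _ hfin
  have hTn : T.Nonempty := by
    obtain ⟨u', hu', -⟩ := hT3 vF ⟨fun i _ => rfl, fun j => rfl⟩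
    exact ⟨u', hu'⟩
  have hTu : ∀ u ∈ T, ∀ i, w i ≠ 0 → u i ≠ 0 := by
    intro u hu
    obtain ⟨h1, h2⟩ := hT1 u hu
    exact hnz u h1 1 one_ne_zero (fun j => by rw [one_mul]; exact h2 j)
  have hTp : ∀ u ∈ T, pF = fun i => if w i = 0 then u i else 0 := by
    intro u hu
    obtain ⟨h1, h2⟩ := hT1 u hu
    rw [hpF]
    funext i
    by_cases hi : w i = 0
    · rw [if_pos hi, if_pos hi, h1 i hi]
    · rw [if_neg hi, if_neg hi]
  -- the jets with the leading coefficient `c`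
  have hC : ∀ (N a : ℕ), d * a = N → ∀ (c : AlgebraicClosure ℂ), c ≠ 0 →
      ∀ z : Pt ℂ (σ × Fin (N + 1)), z ∈ JetC g pF (fun j => aeval vF (g j)) N c ↔
        jk z 0 = pF ∧ (∀ i, w i ≠ 0 → ∀ k < a * w i, jk z k i = 0) ∧
        ∀ j, aeval (fun i => if w i = 0 then vF i else jk z (a * w i) i) (g j) =
          c * aeval vF (g j) := by
    intro N a hN c hc z
    rw [mem_JetC]
    constructor
    · rintro ⟨h1, h2, h3⟩
      have hz : z ∈ JetE g pF (fun j => aeval vF (g j)) N :=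
        Pool.Agent.D0H35.CX.mem_JetE.2 ⟨h1, h2, c, hc, h3⟩
      rw [hJ N] at hz
      obtain ⟨g1, a', g2, -, g4⟩ := hz
      have haa : a' = a := Nat.eq_of_mul_eq_mul_left hd (g4.trans hN.symm)
      rw [haa] at g2
      refine ⟨h1, g2, fun j => ?_⟩
      rw [← (lead g w d hg vF N a hN z (h1.trans hpF) g2 j).2]
      exact h3 j
    · rintro ⟨h1, h2, h3⟩
      refine ⟨h1, fun j => (lead g w d hg vF N a hN z (h1.trans hpF) h2 j).1, fun j => ?_⟩
      rw [(lead g w d hg vF N a hN z (h1.trans hpF) h2 j).2]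
      exact h3 j
  have hLS : ∀ (N a : ℕ), d * a = N → ∀ {ρ : Type} [Fintype ρ] (Φ : Set (Pt ℂ (ρ ⊕ Unit))),
      LS g pF (fun j => aeval vF (g j)) N Φ = ZU w T d a N Φ := by
    intro N a hN ρ _ Φ
    ext x
    constructor
    · rintro ⟨c, hc, h1, h2⟩
      rw [hC N a hN c hc] at h1
      obtain ⟨h3, h4, h5⟩ := h1
      obtain ⟨l, hl⟩ := IsAlgClosed.exists_pow_nat_eq c hd
      have hl0 : l ≠ 0 := by
        rintro rfl
        rw [zero_pow hd.ne'] at hl
        exact hc hl.symm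
      obtain ⟨X₀, hX₀⟩ : ∃ X₀ : Pt ℂ σ, X₀ = fun i => if w i = 0 then vF i else
        jk (fun q => x (Sum.inr q)) (a * w i) i := ⟨_, rfl⟩
      rw [← hX₀] at h5
      have h6 : ∀ j, aeval (fun i => l⁻¹ ^ w i * X₀ i : Pt ℂ σ) (g j) = aeval vF (g j) := by
        intro j
        rw [Vmon2.whom_smul w (g j) (hg j) l⁻¹ X₀, h5 j, inv_pow, hl, inv_mul_cancel_left₀ hc]
      have h7 : (fun i => l⁻¹ ^ w i * X₀ i : Pt ℂ σ) ∈
          {u : Pt ℂ σ | (∀ i, w i = 0 → u i = vF i) ∧ ∀ j, aeval u (g j) = aeval vF (g j)} := by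
        refine ⟨fun i hi => ?_, h6⟩
        change l⁻¹ ^ w i * X₀ i = vF i
        rw [hi, pow_zero, one_mul, hX₀]
        exact if_pos hi
      obtain ⟨u', hu', b, hb, h8⟩ := hT3 _ h7
      obtain ⟨hu0, hu1⟩ := hT1 u' hu'
      have h9 : (fun i => l⁻¹ ^ w i * X₀ i : Pt ℂ σ) = fun i => b ^ w i * u' i := by
        funext i
        by_cases hi : w i = 0
        · have h15 : l⁻¹ ^ w i * X₀ i = vF i := h7.1 i hi
          change l⁻¹ ^ w i * X₀ i = b ^ w i * u' i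
          rw [h15, hu0 i hi, hi, pow_zero, one_mul]
        · exact h8 i hi
      have h10 : b ^ d = 1 := by
        have h11 := h6 j0
        rw [h9, Vmon2.whom_smul w (g j0) (hg j0) b u', hu1 j0] at h11
        exact mul_right_cancel₀ hj0 (h11.trans (one_mul _).symm)
      refine ⟨u', hu', ?_, h4, l * b, mul_ne_zero hl0 hb, fun i hi => ?_, ?_⟩
      · exact h3.trans (hTp u' hu')
      · have h12 : l⁻¹ ^ w i * X₀ i = b ^ w i * u' i := congrFun h9 i
        have h13 : X₀ i = jk (fun q => x (Sum.inr q)) (a * w i) i := by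
          rw [hX₀]
          exact if_neg hi
        rw [← h13, mul_pow, mul_assoc, ← h12, inv_pow, mul_inv_cancel_left₀ (pow_ne_zero _ hl0)]
      · have h14 : (l * b) ^ d * 1 = c := by rw [mul_one, mul_pow, hl, h10, mul_one]
        rw [h14]
        exact h2
    · rintro ⟨u', hu', h1, h2, r, hr, h3, h4⟩
      obtain ⟨hu0, hu1⟩ := hT1 u' hu'
      rw [mul_one] at h4
      refine ⟨r ^ d, pow_ne_zero _ hr, ?_, h4⟩
      rw [hC N a hN _ (pow_ne_zero _ hr)]
      refine ⟨h1.trans (hTp u' hu').symm, h2, fun j => ?_⟩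
      have h5 : (fun i => if w i = 0 then vF i else jk (fun q => x (Sum.inr q)) (a * w i) i : Pt ℂ σ) =
          fun i => r ^ w i * u' i := by
        funext i
        by_cases hi : w i = 0
        · rw [if_pos hi, hi, pow_zero, one_mul, hu0 i hi]
        · rw [if_neg hi, h3 i hi]
      rw [h5, Vmon2.whom_smul w (g j) (hg j) r u', hu1 j]
  have hy : aP (fun j => eval v (g j)) = fun j => aeval vF (g j) := by
    funext j
    rw [hvF, Vmon.aevalA']
    rfl
  have h0F : aP (fun i => if w i = 0 then v i else 0) = pF := by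
    rw [hpF, hvF]
    funext i
    change algebraMap ℂ (AlgebraicClosure ℂ) (if w i = 0 then v i else 0) =
      if w i = 0 then algebraMap ℂ (AlgebraicClosure ℂ) (v i) else (0 : AlgebraicClosure ℂ)
    by_cases hi : w i = 0
    · rw [if_pos hi, if_pos hi]
    · rw [if_neg hi, if_neg hi, map_zero]
  refine ⟨fun i => if w i = 0 then v i else 0, ?_, fun j => eval v (g j), T.card, ?_, hd, hTn.card_pos,
    ⟨d, hd, ?_⟩, fun N hN0 => ⟨fun hdvd => ?_, fun hnd => ?_⟩⟩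
  · rw [pi_norm_lt_iff hε]
    intro i
    by_cases hi : w i = 0
    · rw [if_pos hi]
      exact hvε i
    · rw [if_neg hi, norm_zero]
      exact hε
  · intro h1
    apply hj0
    rw [hvF, Vmon.aevalA', show eval v (g j0) = 0 from congrFun h1 j0, map_zero]
  · rw [h0F, hy, hJ]
    obtain ⟨u, hu⟩ := hTn
    have hu1 := hTu u hu
    obtain ⟨hu0, hu3⟩ := hT1 u hu
    have hjk : ∀ i, w i ≠ 0 → jk (fun q : σ × Fin (d + 1) => if (q.2 : ℕ) = w q.1 then u q.1 else 0)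
        (1 * w i) i = u i := by
      intro i hi
      have h9 := hwd i
      rw [one_mul, Lev.jk_lt _ (by omega)]
      change (if w i = w i then u i else 0) = u i
      rw [if_pos rfl]
    refine ⟨fun q => if (q.2 : ℕ) = w q.1 then u q.1 else 0, ?_, 1, fun i hi k hk => ?_,
      ⟨1, one_ne_zero, fun j => ?_⟩, Nat.mul_one _⟩
    · rw [Lev.jk_zero, hTp u hu]
      funext i
      by_cases hi : w i = 0
      · simp [hi]
      · simp [hi, Ne.symm hi]
    · rw [one_mul] at hk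
      have h9 := hwd i
      rw [Lev.jk_lt _ (by omega)]
      change (if k = w i then u i else 0) = 0
      rw [if_neg hk.ne]
    · rw [one_mul, ← hu3 j]
      congr 1
      congr 1
      funext i
      by_cases hi : w i = 0
      · rw [if_pos hi, hu0 i hi]
      · rw [if_neg hi]
        exact hjk i hi
  · obtain ⟨a, ha⟩ := hdvd
    have ha0 : 0 < a := Nat.pos_of_ne_zero fun h0 => by
      rw [h0, mul_zero] at ha
      omega
    have hwa : ∀ i, a * w i ≤ N := fun i => by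
      rw [ha, mul_comm d a]
      exact Nat.mul_le_mul_left a (hwd i)
    refine ⟨∑ i, (N - a * w i), fun {ρ} _ Φ hΦ => ?_⟩
    rw [h0F, hy, hLS N a ha.symm Φ]
    obtain ⟨h1, h2⟩ := ZU_main w hORB hgcd d a N hd ha0 hwa Φ hΦ T hTu hT2
    exact ⟨h1, fun M v hv => h2 M⟩
  · rw [h0F, hy, hJ, Set.eq_empty_iff_forall_notMem]
    rintro z ⟨-, a, -, -, h4⟩
    exact hnd (h4 ▸ Dvd.intro a rfl)

/-- Module VMONN. -/
theorem t_VMONN : S_ORBN → S_VMONN :=
  main (Pool.Agent.D0H22.CX.t_GENV3 Pool.Agent.D0H22.CX.t_REL3)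

end Pool.Agent.D0H87.TS
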